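import Mathlib

/-!
# The counting potential on lists
-/

namespace Pool.Agent.RandomMaker

variable {α : Type*} [DecidableEq α]

/-- Number of ways to choose, going through the list, distinct earlier partners outside `J`
for all members of `J`, when `s` extra partners are available at the start. -/
def pot (J : Finset α) : List α → ℕ → ℕ
  | [], _ => 1
  | x :: l, s => if x ∈ J then s * pot J l (s - 1) else pot J l (s + 1)

/-- number of members of `J` in the list -/
def cT (J : Finset α) (l : List α) : ℕ := l.countP (fun x => decide (x ∈ J))

/-- number of non-members of `J` in the list -/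
def cF (J : Finset α) (l : List α) : ℕ := l.countP (fun x => decide (x ∉ J))

lemma cT_add_cF (J : Finset α) (l : List α) : cT J l + cF J l = l.length := by
  unfold cT cF
  induction l with
  | nil => simp
  | cons x l ih =>
    by_cases h : x ∈ J <;> simp [h] <;> simp at ih <;> omega

/-- the sum of the potentials after deleting a member of `J` -/
def sumT (J : Finset α) (l : List α) (s : ℕ) : ℕ :=
  (l.map (fun m => if m ∈ J then pot J (l.erase m) s else 0)).sum

/-- the sum of the potentials after deleting a non-member of `J` -/
def sumF (J : Finset α) (l : List α) (s : ℕ) : ℕ :=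
  (l.map (fun m => if m ∈ J then 0 else pot J (l.erase m) s)).sum

lemma map_erase_cons {β : Type*} (F : α → List α → β) (x : α) (l : List α) (hx : x ∉ l) :
    l.map (fun m => F m ((x :: l).erase m)) = l.map (fun m => F m (x :: l.erase m)) := by
  apply List.map_congr_left
  intro m hm
  have : x ≠ m := fun h => hx (h ▸ hm)
  rw [List.erase_cons_tail]
  simpa using this

lemma sumT_cons (J : Finset α) (x : α) (l : List α) (hx : x ∉ l) (s : ℕ) :
    sumT J (x :: l) s = (if x ∈ J then pot J l s else 0) +
      (if x ∈ J then s * sumT J l (s - 1) else sumT J l (s + 1)) := by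
  unfold sumT
  rw [List.map_cons, List.sum_cons]
  have h1 := map_erase_cons (fun m t => if m ∈ J then pot J t s else 0) x l hx
  rw [h1]
  congr 1
  · simp
  · by_cases hxJ : x ∈ J
    · simp only [hxJ, if_true, pot]
      rw [← List.sum_map_mul_left]
      congr 1
      apply List.map_congr_left
      intro m _
      split_ifs <;> simp
    · simp only [hxJ, if_false, pot]

lemma sumF_cons (J : Finset α) (x : α) (l : List α) (hx : x ∉ l) (s : ℕ) :
    sumF J (x :: l) s = (if x ∈ J then 0 else pot J l s) +
      (if x ∈ J then s * sumF J l (s - 1) else sumF J l (s + 1)) := by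
  unfold sumF
  rw [List.map_cons, List.sum_cons]
  have h1 := map_erase_cons (fun m t => if m ∈ J then 0 else pot J t s) x l hx
  rw [h1]
  congr 1
  · simp
  · by_cases hxJ : x ∈ J
    · simp only [hxJ, if_true, pot]
      rw [← List.sum_map_mul_left]
      congr 1
      apply List.map_congr_left
      intro m _
      split_ifs <;> simp
    · simp only [hxJ, if_false, pot]

lemma pot_succ (J : Finset α) (l : List α) (hl : l.Nodup) (s : ℕ) :
    pot J l (s + 1) = pot J l s + sumT J l s := by
  induction l generalizing s with
  | nil => simp [pot, sumT]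
  | cons x l ih =>
    rw [List.nodup_cons] at hl
    rw [sumT_cons J x l hl.1]
    by_cases hx : x ∈ J
    · simp only [pot, hx, if_true, Nat.add_sub_cancel]
      cases s with
      | zero => simp
      | succ s =>
        have := ih hl.2 s
        simp only [Nat.add_sub_cancel]
        rw [this]; ring
    · simp only [pot, hx, if_false]
      have := ih hl.2 (s + 1)
      rw [this]; ring

lemma sumF_eq (J : Finset α) (l : List α) (hl : l.Nodup) (s : ℕ) :
    ((s : ℤ) + cF J l - cT J l) * pot J l s = sumF J l s + s * pot J l (s - 1) := by
  induction l generalizing s with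
  | nil => simp [pot, sumF, cF, cT]
  | cons x l ih =>
    rw [List.nodup_cons] at hl
    rw [sumF_cons J x l hl.1]
    by_cases hx : x ∈ J
    · have e1 : cF J (x :: l) = cF J l := by simp [cF, hx]
      have e2 : cT J (x :: l) = cT J l + 1 := by simp [cT, hx]
      rw [e1, e2]
      simp only [pot, hx, if_true]
      cases s with
      | zero => simp
      | succ s =>
        have := ih hl.2 s
        simp only [Nat.add_sub_cancel]
        push_cast
        have h2 : ((s : ℤ) + 1 + cF J l - (cT J l + 1)) * ((s + 1) * pot J l s) =
          (s + 1) * (((s : ℤ) + cF J l - cT J l) * pot J l s) := by ring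
        rw [h2, this]; ring
    · have e1 : cF J (x :: l) = cF J l + 1 := by simp [cF, hx]
      have e2 : cT J (x :: l) = cT J l := by simp [cT, hx]
      rw [e1, e2]
      simp only [pot, hx, if_false]
      have := ih hl.2 (s + 1)
      simp only [Nat.add_sub_cancel] at this
      push_cast at this ⊢
      have h2 : ((s : ℤ) + (cF J l + 1) - cT J l) * pot J l (s + 1) =
        ((s : ℤ) + 1 + cF J l - cT J l) * pot J l (s + 1) := by ring
      rw [h2, this]
      cases s with
      | zero => simp; ring
      | succ s => simp; ring

lemma pot_eq_zero (J : Finset α) (l : List α) (s : ℕ) (h : cF J l + s < cT J l) :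
    pot J l s = 0 := by
  induction l generalizing s with
  | nil => simp [cT] at h
  | cons x l ih =>
    by_cases hx : x ∈ J
    · have e1 : cF J (x :: l) = cF J l := by simp [cF, hx]
      have e2 : cT J (x :: l) = cT J l + 1 := by simp [cT, hx]
      rw [e1, e2] at h
      simp only [pot, hx, if_true]
      cases s with
      | zero => simp
      | succ s =>
        rw [Nat.add_sub_cancel, ih s (by omega), Nat.mul_zero]
    · have e1 : cF J (x :: l) = cF J l + 1 := by simp [cF, hx]
      have e2 : cT J (x :: l) = cT J l := by simp [cT, hx]
      rw [e1, e2] at h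
      simp only [pot, hx, if_false]
      exact ih (s + 1) (by omega)

lemma pot_eq_one (J : Finset α) (l : List α) (s : ℕ) (h : cT J l = 0) : pot J l s = 1 := by
  induction l generalizing s with
  | nil => simp [pot]
  | cons x l ih =>
    by_cases hx : x ∈ J
    · simp [cT, hx] at h
    · have e2 : cT J (x :: l) = cT J l := by simp [cT, hx]
      rw [e2] at h
      simp only [pot, hx, if_false]
      exact ih _ h

/-- bound of the potential by the product of the positions -/
lemma pot_le_prod (J : Finset α) (w : α → ℕ) (l : List α) (hl : l.Nodup) (s s' : ℕ)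
    (hs : s' ≤ s) (hw : ∀ i (hi : i < l.length), s + i ≤ w l[i]) :
    pot J l s' ≤ ∏ x ∈ l.toFinset.filter (· ∈ J), w x := by
  induction l generalizing s s' with
  | nil => simp [pot]
  | cons x l ih =>
    rw [List.nodup_cons] at hl
    have hx0 : s ≤ w x := by
      have := hw 0 (by simp)
      simpa using this
    have hw' : ∀ i (hi : i < l.length), s + 1 + i ≤ w l[i] := by
      intro i hi
      have := hw (i + 1) (by simpa using hi)
      simp only [List.getElem_cons_succ] at this
      omega
    by_cases hx : x ∈ J
    · simp only [pot, hx, if_true]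
      have hnot : x ∉ l.toFinset.filter (· ∈ J) := by
        simp [hl.1]
      have : (x :: l).toFinset.filter (· ∈ J) = insert x (l.toFinset.filter (· ∈ J)) := by
        rw [List.toFinset_cons, Finset.filter_insert, if_pos hx]
      rw [this, Finset.prod_insert hnot]
      exact Nat.mul_le_mul (hs.trans hx0) (ih hl.2 (s + 1) (s' - 1) (by omega) hw')
    · simp only [pot, hx, if_false]
      have : (x :: l).toFinset.filter (· ∈ J) = (l.toFinset.filter (· ∈ J)) := by
        rw [List.toFinset_cons, Finset.filter_insert, if_neg hx]
      rw [this]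
      exact ih hl.2 (s + 1) (s' + 1) (by omega) hw'

/-- bound of the normalised potential by the product of the relative positions -/
lemma pot_le_den (J : Finset α) (w : α → ℕ) (T : ℕ) (l : List α) (hl : l.Nodup) (s c p : ℕ)
    (hs : s + 2 * c ≤ p + 1) (hpT : p + l.length ≤ T) (h2 : 2 * (c + cT J l) ≤ T + 1)
    (hw : ∀ i (hi : i < l.length), p + 1 + i ≤ w l[i]) :
    (pot J l s : ℝ) ≤ (∏ x ∈ l.toFinset.filter (· ∈ J), ((w x : ℝ) / T)) *
      ∏ i ∈ Finset.range (cT J l), ((T : ℝ) - 2 * (c + i : ℕ)) := by
  induction l generalizing s c p with
  | nil => simp [pot, cT]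
  | cons x l ih =>
    rw [List.nodup_cons] at hl
    have hx0 : p + 1 ≤ w x := by
      have := hw 0 (by simp)
      simpa using this
    have hw' : ∀ i (hi : i < l.length), p + 1 + 1 + i ≤ w l[i] := by
      intro i hi
      have := hw (i + 1) (by simpa using hi)
      simp only [List.getElem_cons_succ] at this
      omega
    rw [List.length_cons] at hpT
    by_cases hx : x ∈ J
    · have e2 : cT J (x :: l) = cT J l + 1 := by simp [cT, hx]
      rw [e2] at h2 ⊢
      simp only [pot, hx, if_true]
      have hnot : x ∉ l.toFinset.filter (· ∈ J) := by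
        simp [hl.1]
      have hset : (x :: l).toFinset.filter (· ∈ J) = insert x (l.toFinset.filter (· ∈ J)) := by
        rw [List.toFinset_cons, Finset.filter_insert, if_pos hx]
      rw [hset, Finset.prod_insert hnot, Finset.prod_range_succ']
      rcases Nat.eq_zero_or_pos s with rfl | hspos
      · have hT0 : (0 : ℝ) ≤ T := Nat.cast_nonneg _
        simp only [zero_mul, Nat.cast_zero]
        apply mul_nonneg
        · apply mul_nonneg
          · positivity
          · exact Finset.prod_nonneg fun x _ => by positivity
        · apply mul_nonneg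
          · apply Finset.prod_nonneg
            intro i hi
            rw [Finset.mem_range] at hi
            have : 2 * (c + (i + 1)) ≤ T := by omega
            have : ((2 * (c + (i + 1)) : ℕ) : ℝ) ≤ T := by exact_mod_cast this
            push_cast at this ⊢
            linarith
          · have : 2 * (c + 0) ≤ T := by omega
            have : ((2 * (c + 0) : ℕ) : ℝ) ≤ T := by exact_mod_cast this
            push_cast at this ⊢
            linarith
      · have ih1 := ih hl.2 (s - 1) (c + 1) (p + 1) (by omega) (by omega) (by omega) hw'
        have hTpos : (0 : ℝ) < T := by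
          have : 0 < T := by omega
          exact_mod_cast this
        have hfac : (s : ℝ) ≤ (w x : ℝ) / T * ((T : ℝ) - 2 * (c + 0 : ℕ)) := by
          have h1 : ((s + 2 * c : ℕ) : ℝ) ≤ ((p + 1 : ℕ) : ℝ) := by exact_mod_cast hs
          have h3 : ((p + 1 : ℕ) : ℝ) ≤ (w x : ℝ) := by exact_mod_cast hx0
          have h4 : ((p + 1 : ℕ) : ℝ) ≤ (T : ℝ) := by
            have : p + 1 ≤ T := by omega
            exact_mod_cast this
          have h5 : (0 : ℝ) ≤ (T : ℝ) - 2 * c := by
            have : 2 * c ≤ T := by omega
            have : ((2 * c : ℕ) : ℝ) ≤ T := by exact_mod_cast this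
            push_cast at this
            linarith
          push_cast at h1 h3 h4 ⊢
          rw [add_zero, div_mul_eq_mul_div, le_div_iff₀ hTpos]
          have h6 : ((p : ℝ) + 1) * ((T : ℝ) - 2 * c) ≤ (w x : ℝ) * ((T : ℝ) - 2 * c) :=
            mul_le_mul_of_nonneg_right h3 h5
          have h7 : (s : ℝ) * T ≤ ((p : ℝ) + 1 - 2 * c) * T :=
            mul_le_mul_of_nonneg_right (by linarith) hTpos.le
          have h8 : (0 : ℝ) ≤ 2 * c * (T - (p + 1)) := by
            apply mul_nonneg (by positivity); linarith
          nlinarith
        have hP : (0 : ℝ) ≤ (∏ x ∈ l.toFinset.filter (· ∈ J), ((w x : ℝ) / T)) *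
            ∏ i ∈ Finset.range (cT J l), ((T : ℝ) - 2 * (c + 1 + i : ℕ)) :=
          le_trans (Nat.cast_nonneg _) ih1
        push_cast [Nat.cast_mul]
        calc (s : ℝ) * (pot J l (s - 1) : ℝ)
            ≤ ((w x : ℝ) / T * ((T : ℝ) - 2 * (c + 0 : ℕ))) *
              ((∏ x ∈ l.toFinset.filter (· ∈ J), ((w x : ℝ) / T)) *
            ∏ i ∈ Finset.range (cT J l), ((T : ℝ) - 2 * (c + 1 + i : ℕ))) :=
              mul_le_mul hfac ih1 (Nat.cast_nonneg _) (le_trans (Nat.cast_nonneg _) hfac)
          _ = _ := by
            have : ∀ i : ℕ, ((T : ℝ) - 2 * (c + 1 + i : ℕ)) =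
                ((T : ℝ) - 2 * ((c : ℝ) + ((i : ℝ) + 1))) := by
              intro i; push_cast; ring
            simp only [this]
            push_cast
            ring
    · have e2 : cT J (x :: l) = cT J l := by simp [cT, hx]
      rw [e2] at h2 ⊢
      simp only [pot, hx, if_false]
      have hset : (x :: l).toFinset.filter (· ∈ J) = (l.toFinset.filter (· ∈ J)) := by
        rw [List.toFinset_cons, Finset.filter_insert, if_neg hx]
      rw [hset]
      exact ih hl.2 (s + 1) c (p + 1) (by omega) (by omega) (by omega) hw'

end Pool.Agent.RandomMaker
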