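import Pool.Agent.Work.MP_ecc80d_co.Defs
import Pool.Agent.Work.MP_ecc80d_co.Lists

/-!
# The priority strategy
-/

namespace Pool.Agent.RandomMaker

variable {α : Type*} [DecidableEq α]

/-- the unclaimed elements, in priority order -/
def freeList (L : List α) (h : List (α × α)) : List α :=
  L.filter (fun e => decide (e ∉ claimed h))

lemma mem_freeList {L : List α} {h : List (α × α)} {x : α} :
    x ∈ freeList L h ↔ x ∈ L ∧ x ∉ claimed h := by
  simp [freeList]

lemma claimed_cons (m b : α) (h : List (α × α)) :
    claimed ((m, b) :: h) = insert m (insert b (claimed h)) := by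
  ext x
  simp [claimed]
  tauto

lemma makerSet_cons (m b : α) (h : List (α × α)) :
    makerSet ((m, b) :: h) = insert m (makerSet h) := by
  ext x
  simp [makerSet]

lemma makerSet_subset_claimed (h : List (α × α)) : makerSet h ⊆ claimed h := by
  intro x hx
  simp only [makerSet, claimed, Finset.mem_union] at *
  exact Or.inl hx

/-- Breaker always claims the first unclaimed element of the list `L`. -/
def priority (E : Finset α) (L : List α) (hnd : L.Nodup) (hL : L.toFinset = E) :
    BreakerStrategy E where
  move h m := ((freeList L h).erase m).headD m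
  legal := by
    intro h m hne
    obtain ⟨x, hx⟩ := hne
    have hfn : (freeList L h).Nodup := hnd.filter _
    have hx' : x ∈ (freeList L h).erase m := by
      rw [Finset.mem_sdiff, Finset.mem_insert, not_or] at hx
      rw [hfn.mem_erase_iff, mem_freeList]
      refine ⟨hx.2.1, ?_, hx.2.2⟩
      rw [← List.mem_toFinset, hL]; exact hx.1
    have hhead : ((freeList L h).erase m).headD m ∈ (freeList L h).erase m := by
      cases hc : (freeList L h).erase m with
      | nil => rw [hc] at hx'; simp at hx'
      | cons y t => simp
    rw [hfn.mem_erase_iff, mem_freeList] at hhead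
    rw [Finset.mem_sdiff, Finset.mem_insert, not_or, ← hL, List.mem_toFinset]
    exact ⟨hhead.2.1, hhead.1, hhead.2.2⟩

section
variable {E : Finset α}

/-- linearity etc. of `expect` -/
lemma expect_mono (σ : BreakerStrategy E) {f g : Finset α → ℝ} (hfg : ∀ M, f M ≤ g M) :
    ∀ k h, expect E σ f k h ≤ expect E σ g k h
  | 0, h => hfg _
  | 1, h => by
    simp only [expect]
    apply div_le_div_of_nonneg_right _ (Nat.cast_nonneg _)
    exact Finset.sum_le_sum fun m _ => hfg _
  | k + 2, h => by
    simp only [expect]
    apply div_le_div_of_nonneg_right _ (Nat.cast_nonneg _)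
    exact Finset.sum_le_sum fun m _ => expect_mono σ hfg k _

lemma expect_sum {ι : Type*} (σ : BreakerStrategy E) (S : Finset ι) (f : ι → Finset α → ℝ) :
    ∀ k h, expect E σ (fun M => ∑ i ∈ S, f i M) k h = ∑ i ∈ S, expect E σ (f i) k h
  | 0, h => rfl
  | 1, h => by
    simp only [expect]
    rw [Finset.sum_comm, Finset.sum_div]
  | k + 2, h => by
    simp only [expect]
    rw [← Finset.sum_div, Finset.sum_comm]
    congr 1
    exact Finset.sum_congr rfl fun m _ => expect_sum σ S f k _

lemma expect_nonneg (σ : BreakerStrategy E) {f : Finset α → ℝ} (hf : ∀ M, 0 ≤ f M) :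
    ∀ k h, 0 ≤ expect E σ f k h
  | 0, h => hf _
  | 1, h => by
    simp only [expect]
    exact div_nonneg (Finset.sum_nonneg fun m _ => hf _) (Nat.cast_nonneg _)
  | k + 2, h => by
    simp only [expect]
    exact div_nonneg (Finset.sum_nonneg fun m _ => expect_nonneg σ hf k _) (Nat.cast_nonneg _)

lemma expect_eq_zero (σ : BreakerStrategy E) (J : Finset α) :
    ∀ k h b, b ∈ J → b ∈ claimed h → b ∉ makerSet h →
      expect E σ (fun M => if J ⊆ M then 1 else 0) k h = 0
  | 0, h, b, hb, _, hm => by
    simp only [expect]
    rw [if_neg]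
    exact fun hJ => hm (hJ hb)
  | 1, h, b, hb, hc, hm => by
    simp only [expect]
    rw [Finset.sum_eq_zero, zero_div]
    intro m hmE
    rw [if_neg]
    intro hJ
    have := hJ hb
    rw [Finset.mem_insert] at this
    rcases this with h1 | h1
    · rw [Finset.mem_sdiff] at hmE
      exact hmE.2 (h1 ▸ hc)
    · exact hm h1
  | k + 2, h, b, hb, hc, hm => by
    simp only [expect]
    rw [Finset.sum_eq_zero, zero_div]
    intro m hmE
    apply expect_eq_zero σ J k _ b hb
    · rw [claimed_cons]
      exact Finset.mem_insert_of_mem (Finset.mem_insert_of_mem hc)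
    · rw [makerSet_cons, Finset.mem_insert, not_or]
      refine ⟨?_, hm⟩
      rintro rfl
      rw [Finset.mem_sdiff] at hmE
      exact hmE.2 hc
end

/-- the denominators -/
noncomputable def den (k a : ℕ) : ℝ := ∏ i ∈ Finset.range a, ((k : ℝ) - 2 * i)

lemma den_zero (k : ℕ) : den k 0 = 1 := by simp [den]

lemma den_succ (k a : ℕ) : den k (a + 1) = den k a * ((k : ℝ) - 2 * a) := by
  simp [den, Finset.prod_range_succ]

lemma den_add_two (k a : ℕ) : den (k + 2) (a + 1) = ((k : ℝ) + 2) * den k a := by
  unfold den
  rw [Finset.prod_range_succ', mul_comm]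
  push_cast
  congr 1
  · ring
  · apply Finset.prod_congr rfl
    intro i _
    ring

lemma den_pos (k a : ℕ) (h : 2 * a ≤ k + 1) : 0 < den k a := by
  unfold den
  apply Finset.prod_pos
  intro i hi
  rw [Finset.mem_range] at hi
  have : (2 * i + 1 : ℕ) ≤ k := by omega
  have h2 : ((2 * i + 1 : ℕ) : ℝ) ≤ k := by exact_mod_cast this
  push_cast at h2
  linarith

lemma one_step (J : Finset α) (l : List α) (hl : l.Nodup) (k : ℕ) (hk : l.length = k + 2) :
    (sumT J l 0 : ℝ) / den k (cT J l - 1) + (sumF J l 0 : ℝ) / den k (cT J l) ≤
      ((k : ℝ) + 2) * ((pot J l 1 : ℝ) / den (k + 2) (cT J l)) := by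
  have hkpos : (0 : ℝ) < (k : ℝ) + 2 := by positivity
  have h1 : (pot J l 1 : ℝ) = pot J l 0 + sumT J l 0 := by
    have := pot_succ J l hl 0
    rw [zero_add] at this
    exact_mod_cast this
  have h2 : ((cF J l : ℝ) - cT J l) * pot J l 0 = sumF J l 0 := by
    have := sumF_eq J l hl 0
    simp only [Nat.cast_zero, zero_add, zero_mul, add_zero] at this
    exact_mod_cast this
  have h3 := cT_add_cF J l
  rw [hk] at h3
  rcases Nat.eq_zero_or_pos (cT J l) with h0 | h0
  · have p0 := pot_eq_one J l 0 h0
    have p1 := pot_eq_one J l 1 h0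
    rw [p0, p1] at h1
    have hT : (sumT J l 0 : ℝ) = 0 := by push_cast at h1; linarith
    rw [hT, h0, den_zero, den_zero, p1]
    rw [p0, h0] at h2
    rw [h0] at h3
    have : (cF J l : ℝ) = k + 2 := by
      have : cF J l = k + 2 := by omega
      rw [this]; push_cast; ring
    rw [this] at h2
    rw [← h2]
    push_cast
    simp
  · obtain ⟨a, ha⟩ : ∃ a, cT J l = a + 1 := ⟨cT J l - 1, by omega⟩
    rw [ha, Nat.add_sub_cancel, den_succ, den_add_two]
    rw [ha] at h2 h3
    have hcF : (cF J l : ℝ) = (k : ℝ) + 1 - a := by
      have : cF J l + a = k + 1 := by omega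
      have h4 : ((cF J l + a : ℕ) : ℝ) = ((k + 1 : ℕ) : ℝ) := by rw [this]
      push_cast at h4
      linarith
    have h2' : ((k : ℝ) - 2 * a) * pot J l 0 = sumF J l 0 := by
      rw [← h2, hcF]; push_cast; ring
    by_cases hbig : cF J l + 1 < cT J l
    · have z1 := pot_eq_zero J l 1 hbig
      have z0 := pot_eq_zero J l 0 (by omega)
      rw [z1, z0] at h1
      have hT : (sumT J l 0 : ℝ) = 0 := by push_cast at h1; linarith
      rw [z0] at h2'
      have hF : (sumF J l 0 : ℝ) = 0 := by rw [← h2']; simp
      rw [hT, hF, z1]
      simp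
    · have hd : 0 < den k a := by
        apply den_pos
        omega
      have hR : ((k : ℝ) + 2) * ((pot J l 1 : ℝ) / (((k : ℝ) + 2) * den k a)) =
          (pot J l 1 : ℝ) / den k a := by
        field_simp
      rw [hR]
      by_cases hz : (k : ℝ) - 2 * a = 0
      · rw [hz, mul_zero, div_zero, add_zero]
        apply div_le_div_of_nonneg_right _ hd.le
        rw [h1]
        have : (0 : ℝ) ≤ pot J l 0 := Nat.cast_nonneg _
        linarith
      · rw [← h2', h1]
        apply le_of_eq
        field_simp
        ring

lemma cT_erase (J : Finset α) (l : List α) (m : α) (hm : m ∈ l) :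
    cT J (l.erase m) = if m ∈ J then cT J l - 1 else cT J l := by
  unfold cT
  rw [List.countP_erase]
  by_cases h : m ∈ J <;> simp [h, hm]

omit [DecidableEq α] in
lemma sum_map_cast_div (l : List α) (f : α → ℕ) (c : ℝ) :
    (l.map (fun m => (f m : ℝ) / c)).sum = ((l.map f).sum : ℝ) / c := by
  induction l with
  | nil => simp
  | cons x l ih =>
    rw [List.map_cons, List.sum_cons, ih, List.map_cons, List.sum_cons]
    push_cast
    ring

section
variable {E : Finset α} {L : List α} (hnd : L.Nodup) (hL : L.toFinset = E)

include hL in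
lemma freeList_toFinset (h : List (α × α)) : (freeList L h).toFinset = E \ claimed h := by
  ext x
  rw [List.mem_toFinset, mem_freeList, Finset.mem_sdiff, ← hL, List.mem_toFinset]

lemma freeList_cons (h : List (α × α)) (hn : L.Nodup) (m b : α) (t : List α)
    (hbt : (freeList L h).erase m = b :: t) :
    freeList L ((m, b) :: h) = t := by
  have hfn : (freeList L h).Nodup := hn.filter _
  have h1 : (freeList L h).erase m = (freeList L h).filter (fun e => decide (e ≠ m)) := by
    rw [hfn.erase_eq_filter]
    apply List.filter_congr
    intro x _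
    by_cases hxm : x = m <;> simp [hxm]
  have h2 : t = ((freeList L h).erase m).filter (fun e => decide (e ≠ b)) := by
    have hn2 : ((freeList L h).erase m).Nodup := hfn.erase m
    rw [hbt] at hn2 ⊢
    rw [List.nodup_cons] at hn2
    rw [List.filter_cons_of_neg (by simp)]
    symm
    rw [List.filter_eq_self]
    intro x hx
    simp only [decide_eq_true_eq]
    rintro rfl
    exact hn2.1 hx
  rw [h2, h1]
  unfold freeList
  rw [List.filter_filter, List.filter_filter]
  apply List.filter_congr
  intro x _
  rw [claimed_cons]
  simp only [Finset.mem_insert, not_or, ne_eq]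
  by_cases h3 : x = m <;> by_cases h4 : x = b <;> by_cases h5 : x ∈ claimed h <;>
    simp [h3, h4, h5]

theorem expect_le (J : Finset α) : ∀ k h, (freeList L h).length = k →
    expect E (priority E L hnd hL) (fun M => if J ⊆ M then 1 else 0) k h ≤
      (pot J (freeList L h) 1 : ℝ) / den k (cT J (freeList L h))
  | 0, h, hk => by
    rw [List.length_eq_zero_iff] at hk
    rw [hk]
    simp only [expect, pot, cT, List.countP_nil, den_zero, Nat.cast_one, div_one]
    split_ifs <;> simp
  | 1, h, hk => by
    rw [List.length_eq_one_iff] at hk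
    obtain ⟨x, hx⟩ := hk
    have hE : E \ claimed h = {x} := by
      rw [← freeList_toFinset hL h, hx]; simp
    rw [hx]
    simp only [expect]
    rw [hE]
    simp only [Finset.sum_singleton, Finset.card_singleton, Nat.cast_one, div_one]
    have hr : (pot J [x] 1 : ℝ) / den 1 (cT J [x]) = 1 := by
      by_cases hxJ : x ∈ J
      · simp [pot, cT, hxJ, den]
      · simp [pot, cT, hxJ, den]
    rw [hr]
    split_ifs <;> simp
  | k + 2, h, hk => by
    have hfn : (freeList L h).Nodup := hnd.filter _
    have hfin := freeList_toFinset hL h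
    have hcard : ((E \ claimed h).card : ℝ) = (k : ℝ) + 2 := by
      rw [← hfin, List.toFinset_card_of_nodup hfn, hk]; push_cast; ring
    simp only [expect]
    rw [hcard, div_le_iff₀ (by positivity)]
    rw [← hfin]
    rw [List.sum_toFinset _ hfn]
    have hstep := one_step J (freeList L h) hfn k hk
    have hterm : ∀ m ∈ freeList L h,
        expect E (priority E L hnd hL) (fun M => if J ⊆ M then 1 else 0) k
          ((m, (priority E L hnd hL).move h m) :: h) ≤
        (((if m ∈ J then pot J ((freeList L h).erase m) 0 else 0 : ℕ) : ℝ) /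
          den k (cT J (freeList L h) - 1)) +
        (((if m ∈ J then 0 else pot J ((freeList L h).erase m) 0 : ℕ) : ℝ) /
          den k (cT J (freeList L h))) := by
      intro m hm
      have hlen : ((freeList L h).erase m).length = k + 1 := by
        rw [List.length_erase_of_mem hm, hk]; rfl
      obtain ⟨b, t, hbt⟩ : ∃ b t, (freeList L h).erase m = b :: t := by
        cases hc : (freeList L h).erase m with
        | nil => rw [hc] at hlen; simp at hlen
        | cons b t => exact ⟨b, t, rfl⟩
      have hmove : (priority E L hnd hL).move h m = b := by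
        simp [priority, hbt]
      rw [hmove]
      have hfl := freeList_cons h hnd m b t hbt
      have hrhs : (((if m ∈ J then pot J ((freeList L h).erase m) 0 else 0 : ℕ) : ℝ) /
          den k (cT J (freeList L h) - 1)) +
        (((if m ∈ J then 0 else pot J ((freeList L h).erase m) 0 : ℕ) : ℝ) /
          den k (cT J (freeList L h))) =
          (pot J (b :: t) 0 : ℝ) / den k (cT J (b :: t)) := by
        rw [← hbt, cT_erase J _ m hm]
        by_cases hmJ : m ∈ J <;> simp [hmJ]
      rw [hrhs]
      by_cases hbJ : b ∈ J
      · have hz : expect E (priority E L hnd hL) (fun M => if J ⊆ M then 1 else 0) k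
            ((m, b) :: h) = 0 := by
          have hb1 : b ∈ (freeList L h).erase m := by rw [hbt]; simp
          rw [hfn.mem_erase_iff, mem_freeList] at hb1
          apply expect_eq_zero _ J k _ b hbJ
          · rw [claimed_cons]; simp
          · rw [makerSet_cons, Finset.mem_insert, not_or]
            exact ⟨hb1.1, fun hx => hb1.2.2 (makerSet_subset_claimed h hx)⟩
        rw [hz]
        simp [pot, hbJ]
      · have hlt : (freeList L ((m, b) :: h)).length = k := by
          rw [hfl]
          rw [hbt] at hlen
          simpa using hlen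
        have ih := expect_le J k ((m, b) :: h) hlt
        rw [hfl] at ih
        refine ih.trans (le_of_eq ?_)
        simp [pot, hbJ, cT]
    have hsum : ((freeList L h).map (fun m =>
        expect E (priority E L hnd hL) (fun M => if J ⊆ M then 1 else 0) k
          ((m, (priority E L hnd hL).move h m) :: h))).sum ≤
        (sumT J (freeList L h) 0 : ℝ) / den k (cT J (freeList L h) - 1) +
          (sumF J (freeList L h) 0 : ℝ) / den k (cT J (freeList L h)) := by
      refine (List.sum_le_sum hterm).trans (le_of_eq ?_)
      rw [List.sum_map_add, sum_map_cast_div, sum_map_cast_div]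
      rfl
    refine hsum.trans (hstep.trans (le_of_eq ?_))
    ring
end

end Pool.Agent.RandomMaker
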