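import Pool.Agent.Work.MP_ecc80d_co.Clique

/-!
# The union bound
-/

namespace Pool.Agent.RandomMaker

open Finset

lemma minProb_le {α : Type*} [DecidableEq α] {E : Finset α} {W : Finset α → Prop}
    (σ : BreakerStrategy E) : minProb E W ≤ winProb E W σ := by
  unfold minProb
  apply ciInf_le
  refine ⟨0, ?_⟩
  rintro _ ⟨τ, rfl⟩
  apply expect_nonneg
  intro M
  split_ifs <;> norm_num

lemma minProb_mono {α : Type*} [DecidableEq α] {E : Finset α} {W W' : Finset α → Prop}
    (h : ∀ M, W M → W' M) : minProb E W ≤ minProb E W' := by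
  unfold minProb
  apply ciInf_mono
  · refine ⟨0, ?_⟩
    rintro _ ⟨τ, rfl⟩
    apply expect_nonneg
    intro M
    split_ifs <;> norm_num
  · intro σ
    unfold winProb
    apply expect_mono
    intro M
    by_cases h1 : W M
    · rw [if_pos h1, if_pos (h M h1)]
    · rw [if_neg h1]; split_ifs <;> norm_num

lemma cliqueProb_anti (N : ℕ) {q q' : ℕ} (h : q ≤ q') : cliqueProb N q' ≤ cliqueProb N q := by
  apply minProb_mono
  intro M hM hc
  exact hM (hc.mono h)

lemma cliqueProb_nonneg (N q : ℕ) : 0 ≤ cliqueProb N q := by
  unfold cliqueProb minProb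
  apply Real.iInf_nonneg
  intro σ
  apply expect_nonneg
  intro M
  split_ifs <;> norm_num

lemma cliqueProb_eq_zero (N q : ℕ) (h : N < q) : cliqueProb N q = 0 := by
  apply le_antisymm _ (cliqueProb_nonneg N q)
  refine (minProb_le (priority _ (prioList N) (prioList_nodup N) (prioList_toFinset N))).trans ?_
  unfold winProb
  have h2 := expect_sum (priority _ (prioList N) (prioList_nodup N) (prioList_toFinset N))
    (∅ : Finset ℕ) (fun _ _ => (0 : ℝ)) (⊤ : SimpleGraph (Fin N)).edgeFinset.card []
  refine le_trans ?_ (le_of_eq (h2.trans Finset.sum_empty))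
  apply expect_mono
  intro M
  rw [if_neg]
  · simp
  · intro hM
    apply hM
    apply SimpleGraph.cliqueFree_of_card_lt
    rw [Fintype.card_fin]; exact h

lemma freeList_nil {α : Type*} [DecidableEq α] (L : List α) : freeList L [] = L := by
  unfold freeList claimed
  rw [List.filter_eq_self]
  intro x _
  simp

/-- the probability that the random Maker gets all of `J` against the priority strategy -/
theorem expect_le_prod {α : Type*} [DecidableEq α] {E : Finset α} {L : List α} (hnd : L.Nodup)
    (hL : L.toFinset = E) (w : α → ℕ) (hw : ∀ i (hi : i < L.length), 1 + i ≤ w L[i])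
    (J : Finset α) (hJ : J ⊆ E) :
    expect E (priority E L hnd hL) (fun M => if J ⊆ M then 1 else 0) E.card [] ≤
      ∏ x ∈ J, ((w x : ℝ) / E.card) := by
  have hlen : (freeList L []).length = E.card := by
    rw [freeList_nil, ← hL, List.toFinset_card_of_nodup hnd]
  have h := expect_le hnd hL J E.card [] hlen
  rw [freeList_nil] at h hlen
  refine h.trans ?_
  have hf : L.toFinset.filter (· ∈ J) = J := by
    ext x
    rw [mem_filter, hL]
    exact ⟨fun h => h.2, fun h => ⟨hJ h, h⟩⟩
  by_cases h2 : 2 * cT J L ≤ E.card + 1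
  · have hpos := den_pos E.card (cT J L) h2
    rw [div_le_iff₀ hpos]
    have := pot_le_den J w E.card L hnd 1 0 0 (by omega) (by omega) (by omega)
      (by intro i hi; have := hw i hi; omega)
    rw [hf] at this
    refine this.trans (le_of_eq ?_)
    unfold den
    congr 1
    apply Finset.prod_congr rfl
    intro i _
    rw [Nat.zero_add]
  · have h3 := cT_add_cF J L
    rw [pot_eq_zero J L 1 (by omega)]
    rw [Nat.cast_zero, zero_div]
    exact Finset.prod_nonneg fun x _ => by positivity

lemma card_topEdges (N : ℕ) : (⊤ : SimpleGraph (Fin N)).edgeFinset.card = N.choose 2 := by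
  rw [SimpleGraph.card_edgeFinset_top_eq_card_choose_two, Fintype.card_fin]

/-- union bound -/
theorem cliqueProb_le (N q : ℕ) (hq : 3 ≤ q) (hqN : q ≤ N) :
    cliqueProb N q ≤ Real.exp (q * (Real.log N - Real.log q / 2 - q / 2 + 3 -
      Real.log 2 / 2)) := by
  set E := (⊤ : SimpleGraph (Fin N)).edgeFinset with hE
  have hq0 : (0 : ℝ) < q := by
    have : 0 < q := by omega
    exact_mod_cast this
  have hN0 : (0 : ℝ) < N := by
    have : 0 < N := by omega
    exact_mod_cast this
  set a := q.choose 2 with ha
  have hET : (E.card : ℝ) = N * (N - 1) / 2 := by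
    rw [hE, card_topEdges, Nat.cast_choose_two]
  have haR : (a : ℝ) = q * (q - 1) / 2 := by
    rw [ha, Nat.cast_choose_two]
  have hq3 : (3 : ℝ) ≤ q := by exact_mod_cast hq
  have hqNR : (q : ℝ) ≤ N := by exact_mod_cast hqN
  have hN1 : (0 : ℝ) < (N : ℝ) - 1 := by linarith
  have hEpos : (0 : ℝ) < E.card := by rw [hET]; positivity
  -- the strategy
  set σ := priority E (prioList N) (prioList_nodup N) (prioList_toFinset N) with hσ
  have h1 : cliqueProb N q ≤ winProb E (fun M => ¬ (SimpleGraph.fromEdgeSet
      (M : Set (Sym2 (Fin N)))).CliqueFree q) σ := minProb_le σ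
  refine h1.trans ?_
  -- each clique
  have hper : ∀ K ∈ (Finset.univ : Finset (Fin N)).powersetCard q,
      expect E σ (fun M => if edgesIn K ⊆ M then 1 else 0) E.card [] ≤
      Real.exp (q * (3 + Real.log ((q : ℝ) / 2) - q) / 2 + q / 2) := by
    intro K hK
    rw [mem_powersetCard] at hK
    have hKc := hK.2
    have hcard : (edgesIn K).card = a := by rw [card_edgesIn, hKc]
    have hsub : edgesIn K ⊆ E := by
      intro e
      induction e using Sym2.ind with
      | _ u v =>
        intro he
        rw [mem_edgesIn] at he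
        rw [hE, mem_topEdges]
        exact he.2.2
    have hb := expect_le_prod (prioList_nodup N) (prioList_toFinset N) (fun e => N * sd N e)
      (fun i hi => prioList_rank N i hi) (edgesIn K) hsub
    refine hb.trans ?_
    -- positivity of distances
    have hsdpos : ∀ e ∈ edgesIn K, 0 < sd N e := by
      intro e he
      have he' := hsub he
      by_contra h0
      have hz : sd N e ≤ 0 := not_lt.mp h0
      have hc := card_sd_le N 0
      rw [Nat.mul_zero, Nat.le_zero, Finset.card_eq_zero] at hc
      have : e ∈ (∅ : Finset (Sym2 (Fin N))) := by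
        rw [← hc, mem_filter]; exact ⟨he', hz⟩
      simp at this
    have hprodpos : 0 < ∏ e ∈ edgesIn K, (((N * sd N e : ℕ) : ℝ) / E.card) := by
      apply Finset.prod_pos
      intro e he
      have := hsdpos e he
      have h4 : 0 < N := by omega
      have : 0 < N * sd N e := Nat.mul_pos h4 this
      have h5 : (0 : ℝ) < ((N * sd N e : ℕ) : ℝ) := by exact_mod_cast this
      exact div_pos h5 hEpos
    rw [← Real.exp_log hprodpos]
    apply Real.exp_le_exp.mpr
    rw [Real.log_prod]
    swap
    · intro e he
      have := hsdpos e he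
      have h4 : 0 < N := by omega
      have : 0 < N * sd N e := Nat.mul_pos h4 this
      have h5 : (0 : ℝ) < ((N * sd N e : ℕ) : ℝ) := by exact_mod_cast this
      exact (div_pos h5 hEpos).ne'
    have hsum := sum_log_le hq K hKc
    have hrw : ∑ e ∈ edgesIn K, Real.log (((N * sd N e : ℕ) : ℝ) / E.card) =
        ∑ e ∈ edgesIn K, Real.log (2 * (sd N e : ℝ) / N) + a * Real.log ((N : ℝ) / (N - 1)) := by
      rw [← hcard, ← nsmul_eq_mul, ← Finset.sum_const, ← Finset.sum_add_distrib]
      apply Finset.sum_congr rfl
      intro e he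
      have := hsdpos e he
      have h5 : (0 : ℝ) < sd N e := by exact_mod_cast this
      rw [← Real.log_mul (by positivity) (by positivity)]
      congr 1
      rw [hET]
      push_cast
      field_simp
    rw [hrw]
    have hlog : Real.log ((N : ℝ) / (N - 1)) ≤ 1 / (N - 1) := by
      have h6 : (N : ℝ) / (N - 1) - 1 = 1 / (N - 1) := by field_simp; ring
      rw [← h6]
      exact Real.log_le_sub_one_of_pos (by positivity)
    have hay : (a : ℝ) * Real.log ((N : ℝ) / (N - 1)) ≤ q / 2 := by
      calc (a : ℝ) * Real.log ((N : ℝ) / (N - 1)) ≤ a * (1 / (N - 1)) :=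
            mul_le_mul_of_nonneg_left hlog (Nat.cast_nonneg _)
        _ = q * (q - 1) / (2 * (N - 1)) := by rw [haR]; field_simp
        _ ≤ q / 2 := by
            rw [div_le_div_iff₀ (by positivity) (by norm_num)]
            nlinarith
    linarith
  -- sum
  have hwin : winProb E (fun M => ¬ (SimpleGraph.fromEdgeSet
      (M : Set (Sym2 (Fin N)))).CliqueFree q) σ ≤
      ∑ K ∈ (Finset.univ : Finset (Fin N)).powersetCard q,
        expect E σ (fun M => if edgesIn K ⊆ M then 1 else 0) E.card [] := by
    unfold winProb
    rw [← expect_sum]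
    apply expect_mono
    intro M
    split_ifs with hM
    · obtain ⟨K, hK⟩ : ∃ K : Finset (Fin N), (SimpleGraph.fromEdgeSet
          (M : Set (Sym2 (Fin N)))).IsNClique q K := by
        by_contra hcon
        exact hM (not_exists.mp hcon)
      rw [SimpleGraph.isNClique_iff] at hK
      have hKsub : edgesIn K ⊆ M := by
        intro e
        induction e using Sym2.ind with
        | _ u v =>
          intro he
          rw [mem_edgesIn] at he
          have := hK.1 he.1 he.2.1 he.2.2
          rw [SimpleGraph.fromEdgeSet_adj] at this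
          exact_mod_cast this.1
      have hKm : K ∈ (Finset.univ : Finset (Fin N)).powersetCard q := by
        rw [mem_powersetCard]; exact ⟨Finset.subset_univ _, hK.2⟩
      calc (1 : ℝ) = (if edgesIn K ⊆ M then 1 else 0) := by rw [if_pos hKsub]
        _ ≤ ∑ K ∈ (Finset.univ : Finset (Fin N)).powersetCard q,
            (if edgesIn K ⊆ M then (1 : ℝ) else 0) := by
          apply Finset.single_le_sum (f := fun K => if edgesIn K ⊆ M then (1 : ℝ) else 0)
          · intro i _
            split_ifs <;> norm_num
          · exact hKm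
    · apply Finset.sum_nonneg
      intro i _
      split_ifs <;> norm_num
  refine hwin.trans ((Finset.sum_le_sum hper).trans ?_)
  rw [Finset.sum_const, Finset.card_powersetCard, Finset.card_univ, Fintype.card_fin,
    nsmul_eq_mul]
  have hchoose : (N.choose q : ℝ) ≤ Real.exp (q * (Real.log N - Real.log q + 1)) := by
    have c1 : (N.choose q : ℝ) ≤ (N : ℝ) ^ q / (q.factorial : ℝ) := Nat.choose_le_pow_div q N
    have c2 : (q : ℝ) ^ q / (q.factorial : ℝ) ≤ Real.exp q :=
      Real.pow_div_factorial_le_exp _ hq0.le _
    have hf : (0 : ℝ) < q.factorial := by exact_mod_cast Nat.factorial_pos q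
    have e1 : (N : ℝ) ^ q / (q.factorial : ℝ) = ((q : ℝ) ^ q / (q.factorial : ℝ)) *
        ((N : ℝ) ^ q / (q : ℝ) ^ q) := by
      field_simp
    rw [e1] at c1
    refine c1.trans ?_
    have e2 : (N : ℝ) ^ q / (q : ℝ) ^ q = Real.exp (q * (Real.log N - Real.log q)) := by
      rw [mul_sub, Real.exp_sub, Real.exp_nat_mul, Real.exp_nat_mul, Real.exp_log hN0,
        Real.exp_log hq0]
    rw [e2]
    calc (q : ℝ) ^ q / (q.factorial : ℝ) * Real.exp (q * (Real.log N - Real.log q))
        ≤ Real.exp q * Real.exp (q * (Real.log N - Real.log q)) :=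
          mul_le_mul_of_nonneg_right c2 (Real.exp_pos _).le
      _ = Real.exp (q * (Real.log N - Real.log q + 1)) := by
          rw [← Real.exp_add]; congr 1; ring
  calc (N.choose q : ℝ) * Real.exp (q * (3 + Real.log ((q : ℝ) / 2) - q) / 2 + q / 2)
      ≤ Real.exp (q * (Real.log N - Real.log q + 1)) *
        Real.exp (q * (3 + Real.log ((q : ℝ) / 2) - q) / 2 + q / 2) :=
        mul_le_mul_of_nonneg_right hchoose (Real.exp_pos _).le
    _ = Real.exp (q * (Real.log N - Real.log q / 2 - q / 2 + 3 -
      Real.log 2 / 2)) := by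
        rw [← Real.exp_add]
        congr 1
        rw [Real.log_div hq0.ne' (by norm_num)]
        ring

end Pool.Agent.RandomMaker
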