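import Mathlib

/-!
# The logarithmic energy of points on a circle
-/

namespace Pool.Agent.RandomMaker

/-- circular distance of two residues in `[0, N)` -/
def cd (N a b : ℕ) : ℕ := min ((a - b) + (b - a)) (N - ((a - b) + (b - a)))

lemma cd_comm (N a b : ℕ) : cd N a b = cd N b a := by
  unfold cd; rw [Nat.add_comm]

lemma log_fac_le (r : ℕ) (hr : 1 ≤ r) :
    Real.log (r.factorial : ℝ) ≤ 1 + Real.log r / 2 + r * Real.log r - r := by
  have h := Stirling.log_stirlingSeq'_antitone (Nat.zero_le (r - 1))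
  simp only [Function.comp_apply, Nat.succ_eq_add_one, Nat.sub_add_cancel hr, zero_add] at h
  rw [Stirling.log_stirlingSeq_formula, Stirling.log_stirlingSeq_formula] at h
  have hr0 : (0 : ℝ) < r := by exact_mod_cast hr
  rw [Real.log_mul (by norm_num) hr0.ne', Real.log_div hr0.ne' (Real.exp_pos 1).ne',
    Real.log_exp] at h
  simp only [Nat.factorial_one, Nat.cast_one, Real.log_one, mul_one, one_div, Real.log_inv,
    Real.log_exp] at h
  linarith

lemma sum_log_half (q r : ℕ) (hr : 1 ≤ r) (hq : 2 * r ≤ q) :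
    ∑ k ∈ Finset.Ico 1 (r + 1), Real.log (2 * (k : ℝ) / q) ≤
      1 + Real.log ((q : ℝ) / 2) / 2 - r := by
  have hr0 : (0 : ℝ) < r := by exact_mod_cast hr
  have hq0 : (0 : ℝ) < q := by
    have : 0 < q := by omega
    exact_mod_cast this
  have h1 : ∑ k ∈ Finset.Ico 1 (r + 1), Real.log (2 * (k : ℝ) / q) =
      Real.log (r.factorial : ℝ) + r * Real.log (2 / q) := by
    have : ∀ k ∈ Finset.Ico 1 (r + 1), Real.log (2 * (k : ℝ) / q) =
        Real.log (k : ℝ) + Real.log (2 / q) := by
      intro k hk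
      rw [Finset.mem_Ico] at hk
      have hk0 : (0 : ℝ) < k := by
        have : 0 < k := by omega
        exact_mod_cast this
      rw [← Real.log_mul hk0.ne' (by positivity)]
      congr 1; ring
    rw [Finset.sum_congr rfl this, Finset.sum_add_distrib, Finset.sum_const, Nat.card_Ico,
      Nat.add_sub_cancel, nsmul_eq_mul]
    congr 1
    rw [← Finset.prod_Ico_id_eq_factorial, Nat.cast_prod, Real.log_prod]
    intro k hk
    rw [Finset.mem_Ico] at hk
    have : 0 < k := by omega
    positivity
  rw [h1]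
  have h2 := log_fac_le r hr
  have h3 : Real.log r + Real.log (2 / q) ≤ 0 := by
    rw [← Real.log_mul hr0.ne' (by positivity)]
    apply Real.log_nonpos (by positivity)
    rw [← mul_div_assoc, div_le_one hq0]
    have : ((2 * r : ℕ) : ℝ) ≤ q := by exact_mod_cast hq
    push_cast at this
    linarith
  have h4 : Real.log r ≤ Real.log ((q : ℝ) / 2) := by
    apply Real.log_le_log hr0
    have : ((2 * r : ℕ) : ℝ) ≤ q := by exact_mod_cast hq
    push_cast at this
    linarith
  nlinarith

lemma sum_log_min (q : ℕ) (hq : 3 ≤ q) :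
    ∑ k ∈ Finset.Ico 1 q, Real.log (2 * ((min k (q - k) : ℕ) : ℝ) / q) ≤
      3 + Real.log ((q : ℝ) / 2) - q := by
  set r := q / 2 with hr
  set r' := (q - 1) / 2 with hr'
  have e1 : r + 1 + r' = q := by omega
  rw [← Finset.sum_Ico_consecutive _ (show 1 ≤ r + 1 by omega) (show r + 1 ≤ q by omega)]
  have h1 : ∑ k ∈ Finset.Ico 1 (r + 1), Real.log (2 * ((min k (q - k) : ℕ) : ℝ) / q) =
      ∑ k ∈ Finset.Ico 1 (r + 1), Real.log (2 * (k : ℝ) / q) := by
    apply Finset.sum_congr rfl
    intro k hk
    rw [Finset.mem_Ico] at hk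
    rw [min_eq_left (by omega)]
  have h2 : ∑ k ∈ Finset.Ico (r + 1) q, Real.log (2 * ((min k (q - k) : ℕ) : ℝ) / q) =
      ∑ k ∈ Finset.Ico 1 (r' + 1), Real.log (2 * (k : ℝ) / q) := by
    apply Finset.sum_bij' (fun k _ => q - k) (fun k _ => q - k)
    · intro k hk; rw [Finset.mem_Ico] at *; omega
    · intro k hk; rw [Finset.mem_Ico] at *; omega
    · intro k hk; rw [Finset.mem_Ico] at *; omega
    · intro k hk; rw [Finset.mem_Ico] at *; omega
    · intro k hk
      rw [Finset.mem_Ico] at hk
      rw [min_eq_right (by omega)]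
  rw [h1, h2]
  have h3 := sum_log_half q r (by omega) (by omega)
  have h4 := sum_log_half q r' (by omega) (by omega)
  have h5 : (r : ℝ) + 1 + r' = q := by exact_mod_cast e1
  linarith

/-- tangent line bound -/
lemma log_le_tangent (u v : ℝ) (hu : 0 < u) (hv : 0 < v) :
    Real.log u ≤ Real.log v + (u / v - 1) := by
  have := Real.log_le_sub_one_of_pos (div_pos hu hv)
  rw [Real.log_div hu.ne' hv.ne'] at this
  linarith

lemma sum_wrap (q : ℕ) (k : Fin q) :
    ∑ i : Fin q, (if q ≤ (i : ℕ) + k then (1 : ℝ) else 0) = k := by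
  rw [Fin.sum_univ_eq_sum_range (fun i => if q ≤ i + (k : ℕ) then (1 : ℝ) else 0) q]
  rw [← Finset.sum_filter, Finset.sum_const, nsmul_eq_mul, mul_one]
  congr 1
  have : (Finset.range q).filter (fun i => q ≤ i + (k : ℕ)) = Finset.Ico (q - k) q := by
    ext i
    simp only [Finset.mem_filter, Finset.mem_range, Finset.mem_Ico]
    have := k.2
    omega
  rw [this, Nat.card_Ico]
  have := k.2
  omega

theorem energy_step (N q : ℕ) (x : Fin q → ℕ) (hx : StrictMono x) (hN : ∀ i, x i < N)
    [NeZero q] (k : Fin q) (hk : k ≠ 0) :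
    ∑ i : Fin q, Real.log (2 * (cd N (x i) (x (i + k)) : ℝ) / N) ≤
      q * Real.log (2 * ((min (k : ℕ) (q - k) : ℕ) : ℝ) / q) := by
  have hkpos : 0 < (k : ℕ) := by
    rcases Nat.eq_zero_or_pos (k : ℕ) with h | h
    · exact absurd (Fin.ext h) hk
    · exact h
  have hkq : (k : ℕ) < q := k.2
  have hq0 : (0 : ℝ) < q := by
    have : 0 < q := by omega
    exact_mod_cast this
  have hN0 : (0 : ℝ) < N := by
    have : 0 < N := lt_of_le_of_lt (Nat.zero_le _) (hN 0)
    exact_mod_cast this
  set fa : Fin q → ℝ := fun i => (x (i + k) : ℝ) - x i +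
    N * (if q ≤ (i : ℕ) + k then (1 : ℝ) else 0) with hfa
  have hsum : ∑ i, fa i = N * k := by
    simp only [hfa]
    rw [Finset.sum_add_distrib, Finset.sum_sub_distrib, ← Finset.mul_sum, sum_wrap]
    have : ∑ i : Fin q, (x (i + k) : ℝ) = ∑ i : Fin q, (x i : ℝ) :=
      Equiv.sum_comp (Equiv.addRight k) (fun i => (x i : ℝ))
    rw [this]; ring
  -- relation between `cd` and `fa`
  have hcd : ∀ i, 0 < cd N (x i) (x (i + k)) ∧ (cd N (x i) (x (i + k)) : ℝ) ≤ fa i ∧
      (cd N (x i) (x (i + k)) : ℝ) ≤ N - fa i := by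
    intro i
    have h1 := hN i
    have h2 := hN (i + k)
    by_cases hw : q ≤ (i : ℕ) + k
    · have hlt : x (i + k) < x i := by
        apply hx
        rw [Fin.lt_def, Fin.val_add_eq_ite, if_pos hw]
        omega
      have e1 : cd N (x i) (x (i + k)) = min (x i - x (i + k)) (N - (x i - x (i + k))) := by
        unfold cd
        rw [Nat.sub_eq_zero_of_le hlt.le, Nat.add_zero]
      refine ⟨?_, ?_, ?_⟩
      · rw [e1]; apply lt_min <;> omega
      · have : cd N (x i) (x (i + k)) + x i ≤ N + x (i + k) := by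
          have := min_le_right (x i - x (i + k)) (N - (x i - x (i + k)))
          rw [e1]; omega
        have h3 : ((cd N (x i) (x (i + k)) + x i : ℕ) : ℝ) ≤ ((N + x (i + k) : ℕ) : ℝ) := by
          exact_mod_cast this
        push_cast at h3
        simp only [hfa, hw, if_true]
        linarith
      · have : cd N (x i) (x (i + k)) + x (i + k) ≤ x i := by
          have := min_le_left (x i - x (i + k)) (N - (x i - x (i + k)))
          rw [e1]; omega
        have h3 : ((cd N (x i) (x (i + k)) + x (i + k) : ℕ) : ℝ) ≤ ((x i : ℕ) : ℝ) := by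
          exact_mod_cast this
        push_cast at h3
        simp only [hfa, hw, if_true]
        linarith
    · have hlt : x i < x (i + k) := by
        apply hx
        rw [Fin.lt_def, Fin.val_add_eq_ite, if_neg hw]
        omega
      have e1 : cd N (x i) (x (i + k)) = min (x (i + k) - x i) (N - (x (i + k) - x i)) := by
        unfold cd
        rw [Nat.sub_eq_zero_of_le hlt.le, Nat.zero_add]
      refine ⟨?_, ?_, ?_⟩
      · rw [e1]; apply lt_min <;> omega
      · have : cd N (x i) (x (i + k)) + x i ≤ x (i + k) := by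
          have := min_le_left (x (i + k) - x i) (N - (x (i + k) - x i))
          rw [e1]; omega
        have h3 : ((cd N (x i) (x (i + k)) + x i : ℕ) : ℝ) ≤ ((x (i + k) : ℕ) : ℝ) := by
          exact_mod_cast this
        push_cast at h3
        simp only [hfa, hw, if_false]
        linarith
      · have : cd N (x i) (x (i + k)) + x (i + k) ≤ N + x i := by
          have := min_le_right (x (i + k) - x i) (N - (x (i + k) - x i))
          rw [e1]; omega
        have h3 : ((cd N (x i) (x (i + k)) + x (i + k) : ℕ) : ℝ) ≤ ((N + x i : ℕ) : ℝ) := by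
          exact_mod_cast this
        push_cast at h3
        simp only [hfa, hw, if_false]
        linarith
  have key : ∀ (c : ℕ) (g : Fin q → ℝ), 0 < c → (∀ i, (cd N (x i) (x (i + k)) : ℝ) ≤ g i) →
      ∑ i, g i = N * c →
      ∑ i : Fin q, Real.log (2 * (cd N (x i) (x (i + k)) : ℝ) / N) ≤
        q * Real.log (2 * (c : ℝ) / q) := by
    intro c g hc hg hgs
    have hc0 : (0 : ℝ) < c := by exact_mod_cast hc
    have hb : ∀ i : Fin q, Real.log (2 * (cd N (x i) (x (i + k)) : ℝ) / N) ≤
        Real.log (2 * (c : ℝ) / q) + (g i * (q / (N * c)) - 1) := by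
      intro i
      have hpos : (0 : ℝ) < cd N (x i) (x (i + k)) := by exact_mod_cast (hcd i).1
      refine (log_le_tangent _ (2 * (c : ℝ) / q) (by positivity) (by positivity)).trans ?_
      have e : 2 * (cd N (x i) (x (i + k)) : ℝ) / N / (2 * (c : ℝ) / q) =
          cd N (x i) (x (i + k)) * (q / (N * c)) := by
        field_simp
      rw [e]
      have := mul_le_mul_of_nonneg_right (hg i) (show (0 : ℝ) ≤ q / (N * c) by positivity)
      linarith
    refine (Finset.sum_le_sum fun i _ => hb i).trans (le_of_eq ?_)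
    rw [Finset.sum_add_distrib, Finset.sum_sub_distrib, ← Finset.sum_mul, hgs]
    simp only [Finset.sum_const, Finset.card_univ, Fintype.card_fin, nsmul_eq_mul, mul_one]
    field_simp
    ring
  rcases le_total (k : ℕ) (q - k) with h | h
  · rw [min_eq_left h]
    exact key k fa hkpos (fun i => (hcd i).2.1) hsum
  · rw [min_eq_right h]
    apply key (q - k) (fun i => N - fa i) (by omega) (fun i => (hcd i).2.2)
    rw [Finset.sum_sub_distrib, hsum]
    simp only [Finset.sum_const, Finset.card_univ, Fintype.card_fin, nsmul_eq_mul]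
    rw [Nat.cast_sub hkq.le]
    ring

theorem energy_fin (N q : ℕ) (hq : 3 ≤ q) (x : Fin q → ℕ) (hx : StrictMono x)
    (hN : ∀ i, x i < N) :
    ∑ i : Fin q, ∑ j ∈ Finset.univ.erase i, Real.log (2 * (cd N (x i) (x j) : ℝ) / N) ≤
      q * (3 + Real.log ((q : ℝ) / 2) - q) := by
  have : NeZero q := ⟨by omega⟩
  have h1 : ∀ i : Fin q, ∑ j ∈ Finset.univ.erase i, Real.log (2 * (cd N (x i) (x j) : ℝ) / N) =
      ∑ k ∈ Finset.univ.erase (0 : Fin q), Real.log (2 * (cd N (x i) (x (i + k)) : ℝ) / N) := by
    intro i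
    symm
    apply Finset.sum_bij' (fun k _ => i + k) (fun j _ => j - i)
    · intro k hk
      rw [Finset.mem_erase] at *
      refine ⟨?_, Finset.mem_univ _⟩
      intro h
      exact hk.1 (by simpa using h)
    · intro j hj
      rw [Finset.mem_erase] at *
      refine ⟨?_, Finset.mem_univ _⟩
      intro h
      exact hj.1 (by rwa [sub_eq_zero] at h)
    · intro k hk; simp
    · intro j hj; simp
    · intro k hk; rfl
  rw [Finset.sum_congr rfl fun i _ => h1 i, Finset.sum_comm]
  have h2 : ∀ k ∈ Finset.univ.erase (0 : Fin q),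
      ∑ i : Fin q, Real.log (2 * (cd N (x i) (x (i + k)) : ℝ) / N) ≤
      q * Real.log (2 * ((min (k : ℕ) (q - k) : ℕ) : ℝ) / q) := by
    intro k hk
    rw [Finset.mem_erase] at hk
    exact energy_step N q x hx hN k hk.1
  refine (Finset.sum_le_sum h2).trans ?_
  rw [← Finset.mul_sum]
  apply mul_le_mul_of_nonneg_left _ (Nat.cast_nonneg _)
  refine le_trans (le_of_eq ?_) (sum_log_min q hq)
  apply Finset.sum_bij (fun (k : Fin q) _ => (k : ℕ))
  · intro k hk
    rw [Finset.mem_erase] at hk
    rw [Finset.mem_Ico]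
    have := k.2
    have h3 : (k : ℕ) ≠ 0 := fun h => hk.1 (Fin.ext h)
    omega
  · intro a _ b _ h
    exact Fin.ext h
  · intro b hb
    rw [Finset.mem_Ico] at hb
    refine ⟨⟨b, hb.2⟩, ?_, rfl⟩
    rw [Finset.mem_erase]
    refine ⟨?_, Finset.mem_univ _⟩
    intro h
    have := congrArg Fin.val h
    simp at this
    omega
  · intro k _; rfl

end Pool.Agent.RandomMaker
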