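import Pool.Agent.Work.MP_ecc80d_co.Board
import Pool.Agent.Work.MP_ecc80d_co.Energy

/-!
# The priority order by circular distance
-/

namespace Pool.Agent.RandomMaker

open Finset

/-- circular distance of the endpoints of an edge -/
def sd (N : ℕ) : Sym2 (Fin N) → ℕ :=
  Sym2.lift ⟨fun a b => cd N a b, fun a b => cd_comm N a b⟩

lemma sd_mk (N : ℕ) (a b : Fin N) : sd N s(a, b) = cd N a b := rfl

/-- the edges inside a vertex set -/
def edgesIn {N : ℕ} (K : Finset (Fin N)) : Finset (Sym2 (Fin N)) :=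
  K.sym2.filter (fun e => ¬ e.IsDiag)

lemma mem_edgesIn {N : ℕ} {K : Finset (Fin N)} {a b : Fin N} :
    s(a, b) ∈ edgesIn K ↔ a ∈ K ∧ b ∈ K ∧ a ≠ b := by
  simp [edgesIn, and_assoc]

lemma card_edgesIn {N : ℕ} (K : Finset (Fin N)) : (edgesIn K).card = K.card.choose 2 := by
  rw [← Sym2.card_image_offDiag]
  congr 1
  ext e
  induction e using Sym2.ind with
  | _ a b =>
    rw [mem_edgesIn, mem_image]
    constructor
    · rintro ⟨ha, hb, hab⟩
      exact ⟨(a, b), by simp [ha, hb, hab], rfl⟩
    · rintro ⟨⟨c, d⟩, hcd, he⟩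
      rw [mem_offDiag] at hcd
      simp only at hcd
      rcases Sym2.eq_iff.mp he with ⟨rfl, rfl⟩ | ⟨rfl, rfl⟩
      · exact hcd
      · exact ⟨hcd.2.1, hcd.1, hcd.2.2.symm⟩

lemma sum_offDiag_eq {N : ℕ} (K : Finset (Fin N)) (g : Sym2 (Fin N) → ℝ) :
    ∑ p ∈ K.offDiag, g s(p.1, p.2) = 2 * ∑ e ∈ edgesIn K, g e := by
  have h1 : ∑ e ∈ edgesIn K, g e = ∑ p ∈ K.offDiag with p.1 < p.2, g s(p.1, p.2) :=
    Finset.sum_sym2_filter_not_isDiag K g
  have h2 : ∑ p ∈ K.offDiag with ¬ p.1 < p.2, g s(p.1, p.2) =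
      ∑ p ∈ K.offDiag with p.1 < p.2, g s(p.1, p.2) := by
    refine Finset.sum_bij' (fun p _ => (p.2, p.1)) (fun p _ => (p.2, p.1)) ?_ ?_ ?_ ?_ ?_
    · intro p hp
      simp only [mem_filter, mem_offDiag] at *
      refine ⟨⟨hp.1.2.1, hp.1.1, hp.1.2.2.symm⟩, ?_⟩
      exact lt_of_le_of_ne (not_lt.mp hp.2) hp.1.2.2.symm
    · intro p hp
      simp only [mem_filter, mem_offDiag] at *
      exact ⟨⟨hp.1.2.1, hp.1.1, hp.1.2.2.symm⟩, not_lt.mpr hp.2.le⟩
    · intro p _; rfl
    · intro p _; rfl
    · intro p _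
      rw [Sym2.eq_swap]
  rw [← Finset.sum_filter_add_sum_filter_not K.offDiag (fun p => p.1 < p.2), h2, ← h1]
  ring

lemma sum_log_le {N q : ℕ} (hq : 3 ≤ q) (K : Finset (Fin N)) (hK : K.card = q) :
    ∑ e ∈ edgesIn K, Real.log (2 * (sd N e : ℝ) / N) ≤
      q * (3 + Real.log ((q : ℝ) / 2) - q) / 2 := by
  have h1 := sum_offDiag_eq K (fun e => Real.log (2 * (sd N e : ℝ) / N))
  set x : Fin q → ℕ := fun i => ((K.orderEmbOfFin hK i : Fin N) : ℕ) with hx
  have hmono : StrictMono x := by
    intro i j hij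
    exact (K.orderEmbOfFin hK).strictMono hij
  have h2 := energy_fin N q hq x hmono (fun i => (K.orderEmbOfFin hK i).2)
  have h3 : ∑ p ∈ K.offDiag, Real.log (2 * (sd N s(p.1, p.2) : ℝ) / N) =
      ∑ i : Fin q, ∑ j ∈ Finset.univ.erase i, Real.log (2 * (cd N (x i) (x j) : ℝ) / N) := by
    have : ∑ i : Fin q, ∑ j ∈ Finset.univ.erase i, Real.log (2 * (cd N (x i) (x j) : ℝ) / N) =
        ∑ p ∈ (Finset.univ : Finset (Fin q)).sigma (fun i => Finset.univ.erase i),
          Real.log (2 * (cd N (x p.1) (x p.2) : ℝ) / N) := by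
      rw [Finset.sum_sigma]
    rw [this]
    symm
    apply Finset.sum_bij (fun (p : (_ : Fin q) × Fin q) _ =>
      (K.orderEmbOfFin hK p.1, K.orderEmbOfFin hK p.2))
    · rintro ⟨i, j⟩ hp
      simp only [mem_sigma, mem_univ, mem_erase, true_and] at hp
      rw [mem_offDiag]
      refine ⟨K.orderEmbOfFin_mem hK i, K.orderEmbOfFin_mem hK j, ?_⟩
      intro h
      exact hp.1 ((K.orderEmbOfFin hK).injective h).symm
    · rintro ⟨i, j⟩ _ ⟨i', j'⟩ _ h
      simp only [Prod.mk.injEq] at h
      have e1 := (K.orderEmbOfFin hK).injective h.1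
      have e2 := (K.orderEmbOfFin hK).injective h.2
      subst e1; subst e2; rfl
    · rintro ⟨a, b⟩ hp
      rw [mem_offDiag] at hp
      simp only at hp
      have ha : a ∈ Set.range (K.orderEmbOfFin hK) := by
        rw [Finset.range_orderEmbOfFin]; exact hp.1
      have hb : b ∈ Set.range (K.orderEmbOfFin hK) := by
        rw [Finset.range_orderEmbOfFin]; exact hp.2.1
      obtain ⟨i, hi⟩ := ha
      obtain ⟨j, hj⟩ := hb
      refine ⟨⟨i, j⟩, ?_, ?_⟩
      · simp only [mem_sigma, mem_univ, mem_erase, true_and, and_true]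
        rintro rfl
        exact hp.2.2 (hi.symm.trans hj)
      · simp only [hi, hj]
    · rintro ⟨i, j⟩ _
      rfl
  rw [← h3, h1] at h2
  linarith

lemma mem_topEdges {N : ℕ} {a b : Fin N} :
    s(a, b) ∈ (⊤ : SimpleGraph (Fin N)).edgeFinset ↔ a ≠ b := by
  simp

/-- at most `N * t` edges have circular distance at most `t` -/
lemma card_sd_le (N t : ℕ) :
    ((⊤ : SimpleGraph (Fin N)).edgeFinset.filter (fun e => sd N e ≤ t)).card ≤ N * t := by
  rcases Nat.eq_zero_or_pos N with rfl | hN
  · rw [Finset.card_eq_zero.mpr]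
    · simp
    · ext e
      induction e using Sym2.ind with
      | _ a b => exact a.elim0
  have hsub : (⊤ : SimpleGraph (Fin N)).edgeFinset.filter (fun e => sd N e ≤ t) ⊆
      ((Finset.univ : Finset (Fin N)) ×ˢ Finset.Icc 1 t).image
        (fun p => s(p.1, (⟨(p.1 + p.2) % N, Nat.mod_lt _ hN⟩ : Fin N))) := by
    have main : ∀ a b : Fin N, a < b → sd N s(a, b) ≤ t →
        s(a, b) ∈ ((Finset.univ : Finset (Fin N)) ×ˢ Finset.Icc 1 t).image
        (fun p => s(p.1, (⟨(p.1 + p.2) % N, Nat.mod_lt _ hN⟩ : Fin N))) := by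
      intro a b hab ht
      rw [sd_mk] at ht
      have hab' : (a : ℕ) < b := hab
      have hbN := b.2
      unfold cd at ht
      rw [Nat.sub_eq_zero_of_le hab'.le, Nat.zero_add] at ht
      rw [mem_image]
      rcases le_total ((b : ℕ) - a) (N - (b - a)) with h | h
      · rw [min_eq_left h] at ht
        refine ⟨(a, b - a), ?_, ?_⟩
        · rw [mem_product, mem_Icc]
          refine ⟨mem_univ _, ?_, ht⟩
          simp only; omega
        · simp only
          congr 2
          rw [show (a : ℕ) + (b - a) = b by omega, Nat.mod_eq_of_lt hbN]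
      · rw [min_eq_right h] at ht
        refine ⟨(b, N - (b - a)), ?_, ?_⟩
        · rw [mem_product, mem_Icc]
          refine ⟨mem_univ _, ?_, ht⟩
          simp only; omega
        · simp only
          rw [Sym2.eq_swap]
          congr 2
          rw [show (b : ℕ) + (N - (b - a)) = a + N by omega, Nat.add_mod_right,
            Nat.mod_eq_of_lt a.2]
    intro e
    induction e using Sym2.ind with
    | _ a b =>
      intro he
      rw [mem_filter, mem_topEdges] at he
      rcases lt_or_gt_of_ne he.1 with h | h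
      · exact main a b h he.2
      · rw [Sym2.eq_swap]
        exact main b a h (by rw [Sym2.eq_swap]; exact he.2)
  refine (Finset.card_le_card hsub).trans (Finset.card_image_le.trans ?_)
  rw [Finset.card_product, Finset.card_univ, Fintype.card_fin, Nat.card_Icc]
  simp

/-- edges sorted by circular distance -/
noncomputable def prioList (N : ℕ) : List (Sym2 (Fin N)) :=
  ((⊤ : SimpleGraph (Fin N)).edgeFinset.toList).insertionSort (fun a b => sd N a ≤ sd N b)

lemma prioList_perm (N : ℕ) :
    (prioList N).Perm ((⊤ : SimpleGraph (Fin N)).edgeFinset.toList) :=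
  List.perm_insertionSort _ _

lemma prioList_nodup (N : ℕ) : (prioList N).Nodup :=
  (prioList_perm N).nodup_iff.mpr (Finset.nodup_toList _)

lemma prioList_toFinset (N : ℕ) :
    (prioList N).toFinset = (⊤ : SimpleGraph (Fin N)).edgeFinset := by
  rw [List.toFinset_eq_of_perm _ _ (prioList_perm N), Finset.toList_toFinset]

lemma prioList_rank (N : ℕ) (i : ℕ) (hi : i < (prioList N).length) :
    1 + i ≤ N * sd N (prioList N)[i] := by
  have : Std.Total (fun a b : Sym2 (Fin N) => sd N a ≤ sd N b) :=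
    ⟨fun a b => le_total _ _⟩
  have : IsTrans (Sym2 (Fin N)) (fun a b => sd N a ≤ sd N b) :=
    ⟨fun a b c h1 h2 => le_trans h1 h2⟩
  have hs : (prioList N).Pairwise (fun a b => sd N a ≤ sd N b) := by
    exact List.pairwise_insertionSort _ _
  refine le_trans ?_ (card_sd_le N (sd N (prioList N)[i]))
  have hnd := prioList_nodup N
  have hsub : ((prioList N).take (i + 1)).toFinset ⊆
      (⊤ : SimpleGraph (Fin N)).edgeFinset.filter (fun e => sd N e ≤ sd N (prioList N)[i]) := by
    intro e he
    rw [List.mem_toFinset] at he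
    rw [mem_filter]
    refine ⟨?_, ?_⟩
    · rw [← prioList_toFinset, List.mem_toFinset]
      exact List.mem_of_mem_take he
    · obtain ⟨j, hj, rfl⟩ := List.getElem_of_mem he
      rw [List.getElem_take]
      rw [List.length_take] at hj
      have hj' : j ≤ i := by omega
      rcases Nat.lt_or_ge j i with h | h
      · exact List.pairwise_iff_getElem.mp hs j i (by omega) hi h
      · have : j = i := by omega
        subst this; exact le_refl _
  have hc := Finset.card_le_card hsub
  rw [List.toFinset_card_of_nodup (hnd.sublist (List.take_sublist _ _)), List.length_take] at hc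
  omega

end Pool.Agent.RandomMaker
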