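import Mathlib

/-!
# Random Maker against an arbitrary Breaker: definitions

A history is the list of completed rounds, most recent round first; a round is a pair
(edge claimed by Maker, edge claimed by Breaker).
-/

namespace Pool.Agent.RandomMaker

variable {α : Type*} [DecidableEq α]

/-- The elements claimed by Maker in the completed rounds `h`. -/
def makerSet (h : List (α × α)) : Finset α := (h.map Prod.fst).toFinset

/-- The elements claimed by either player in the completed rounds `h`. -/
def claimed (h : List (α × α)) : Finset α :=
  (h.map Prod.fst).toFinset ∪ (h.map Prod.snd).toFinset

/-- A Breaker strategy on the board `E`: given the completed rounds `h` and Maker's new move `m`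
it returns Breaker's answer; the answer has to be unclaimed whenever an unclaimed element is
left. The answer may depend on the whole history. -/
structure BreakerStrategy (E : Finset α) where
  /-- Breaker's answer to the history `h` followed by Maker's move `m`. -/
  move : List (α × α) → α → α
  /-- The answer is an unclaimed element of the board, if there is one. -/
  legal : ∀ (h : List (α × α)) (m : α), (E \ insert m (claimed h)).Nonempty →
    move h m ∈ E \ insert m (claimed h)

/-- `expect E σ f k h`: the expected value of `f` (Maker's final set) when the completed rounds
are `h`, exactly `k` elements are unclaimed, Maker is to move, Maker always claims a uniformly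
random unclaimed element and Breaker answers by `σ`. If `k = 0` the game is over; if `k = 1`
Maker claims the last element and the game is over; otherwise Maker claims `m`, Breaker answers
`σ.move h m`, and `k - 2` elements are left. -/
noncomputable def expect (E : Finset α) (σ : BreakerStrategy E) (f : Finset α → ℝ) :
    ℕ → List (α × α) → ℝ
  | 0, h => f (makerSet h)
  | 1, h => (∑ m ∈ E \ claimed h, f (insert m (makerSet h))) / ((E \ claimed h).card : ℝ)
  | k + 2, h => (∑ m ∈ E \ claimed h, expect E σ f k ((m, σ.move h m) :: h)) /
      ((E \ claimed h).card : ℝ)

open Classical in
/-- The probability that the random Maker's final set satisfies `W` when Breaker follows `σ`. -/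
noncomputable def winProb (E : Finset α) (W : Finset α → Prop) (σ : BreakerStrategy E) : ℝ :=
  expect E σ (fun M => if W M then 1 else 0) E.card []

/-- The minimum over all Breaker strategies of the probability that the random Maker's final set
satisfies `W`. -/
noncomputable def minProb (E : Finset α) (W : Finset α → Prop) : ℝ :=
  ⨅ σ : BreakerStrategy E, winProb E W σ

/-- `cliqueProb N q` is `p_N(q)`: the board is the edge set of the complete graph on `N` vertices
and Maker wants his final graph to contain a clique on `q` vertices. -/
noncomputable def cliqueProb (N q : ℕ) : ℝ :=
  minProb (⊤ : SimpleGraph (Fin N)).edgeFinset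
    (fun M => ¬ (SimpleGraph.fromEdgeSet (M : Set (Sym2 (Fin N)))).CliqueFree q)

end Pool.Agent.RandomMaker
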